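import Mathlib

set_option autoImplicit false

namespace Pool.Agent.P.MP_b94424_al

open Matrix

abbrev M2 := Matrix (Fin 2) (Fin 2) ℂ
abbrev SU2 := Matrix.specialUnitaryGroup (Fin 2) ℂ

lemma poly_bound (L a : ℝ) (h0 : 0 ≤ a) (h1 : a ≤ L) (h4 : L ≤ 4) :
    (4 - L) * (3 - L) ^ 2 * ((1 - a) ^ 2 * a * (L - a)) < 2 := by
  have hq : 0 ≤ (1 - a) ^ 2 * a := by positivity
  have hh : 0 ≤ (4 - L) * (3 - L) ^ 2 := mul_nonneg (by linarith) (sq_nonneg _)
  have g2 : (1 - a) ^ 2 * a * (2 - a) ≤ 1 / 4 := by nlinarith [sq_nonneg ((1 - a) ^ 2 - 1 / 2)]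
  have g3 : (1 - a) ^ 2 * a * (3 - a) ≤ 3 := by
    nlinarith [sq_nonneg (a ^ 2 - 5 / 2 * a), sq_nonneg (a - 12 / 5), sq_nonneg (a ^ 2 - 5 / 2 * a + 1 / 4)]
  have g4 : (1 - a) ^ 2 * a * (4 - a) ≤ 13 := by
    nlinarith [sq_nonneg (a ^ 2 - 3 * a - 1), sq_nonneg (a - 33 / 10)]
  rcases le_total L 2 with hL | hL
  · have g : (1 - a) ^ 2 * a * (L - a) ≤ L / 8 := by
      rcases le_total ((1 - a) ^ 2 * a) (1 / 8) with h | h
      · nlinarith
      · nlinarith
    have : (4 - L) * (3 - L) ^ 2 * (L / 8) < 2 := by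
      nlinarith [sq_nonneg (L ^ 2 - 5 * L + 7 / 2), sq_nonneg (L - 4 / 5)]
    exact lt_of_le_of_lt (mul_le_mul_of_nonneg_left g hh) this
  rcases le_total L 3 with hL3 | hL3
  · have g : (1 - a) ^ 2 * a * (L - a) ≤ 1 / 4 + 3 * (L - 2) := by
      nlinarith [mul_nonneg (sub_nonneg.2 hL) (sub_nonneg.2 g3),
        mul_nonneg (sub_nonneg.2 hL3) (sub_nonneg.2 g2)]
    have : (4 - L) * (3 - L) ^ 2 * (1 / 4 + 3 * (L - 2)) < 2 := by
      have e0 : 0 ≤ 3 - L := by linarith
      have e1 : (3 - L) ^ 2 ≤ 3 - L := by nlinarith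
      have e2 : (4 - L) * (3 - L) ^ 2 ≤ 2 * (3 - L) := by nlinarith
      have e3 : 0 ≤ 1 / 4 + 3 * (L - 2) := by linarith
      refine lt_of_le_of_lt (mul_le_mul_of_nonneg_right e2 e3) ?_
      nlinarith [sq_nonneg (L - 59 / 24)]
    exact lt_of_le_of_lt (mul_le_mul_of_nonneg_left g hh) this
  · have g : (1 - a) ^ 2 * a * (L - a) ≤ 13 := by nlinarith
    have e : (4 - L) * (3 - L) ^ 2 ≤ 4 / 27 := by
      nlinarith [mul_nonneg (sq_nonneg (L - 11 / 3)) (sub_nonneg.2 hL3), sq_nonneg (L - 11 / 3)]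
    have g0 : 0 ≤ (1 - a) ^ 2 * a * (L - a) := mul_nonneg hq (by linarith)
    nlinarith

lemma star_eq_adj (U : SU2) : star (U : M2) = adjugate (U : M2) := by
  have hU := Matrix.mem_specialUnitaryGroup_iff.1 U.2
  have h1 : (U : M2) * star (U : M2) = 1 := (Matrix.mem_unitaryGroup_iff).1 hU.1
  have h2 : adjugate (U : M2) * (U : M2) = 1 := by rw [adjugate_mul, hU.2, one_smul]
  calc star (U : M2) = (adjugate (U : M2) * (U : M2)) * star (U : M2) := by rw [h2, one_mul]
    _ = adjugate (U : M2) := by rw [mul_assoc, h1, mul_one]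

lemma trace_real_le (U : SU2) : ∃ t : ℝ, (U : M2).trace = t ∧ t ≤ 2 := by
  have hU := Matrix.mem_specialUnitaryGroup_iff.1 U.2
  have h := star_eq_adj U
  have h00 : (starRingEnd ℂ) ((U : M2) 0 0) = (U : M2) 1 1 := by
    have := congrFun (congrFun h 0) 0
    simpa [adjugate_fin_two, Matrix.star_apply] using this
  have h01 : (starRingEnd ℂ) ((U : M2) 1 0) = - (U : M2) 0 1 := by
    have := congrFun (congrFun h 0) 1
    simpa [adjugate_fin_two, Matrix.star_apply] using this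
  have hd : (U : M2) 0 0 * (U : M2) 1 1 - (U : M2) 0 1 * (U : M2) 1 0 = 1 := by
    rw [← det_fin_two]; exact hU.2
  have h01' : (U : M2) 0 1 = - (starRingEnd ℂ) ((U : M2) 1 0) := by rw [h01, neg_neg]
  rw [← h00, h01'] at hd
  have hre := congrArg Complex.re hd
  simp only [Complex.sub_re, Complex.mul_re, Complex.conj_re, Complex.conj_im, Complex.neg_re,
    Complex.neg_im, Complex.one_re] at hre
  refine ⟨2 * ((U : M2) 0 0).re, ?_, ?_⟩
  · rw [trace_fin_two, ← h00, Complex.add_conj]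
  · nlinarith [sq_nonneg (((U : M2) 0 0).re - 1), sq_nonneg ((U : M2) 0 0).im,
      sq_nonneg ((U : M2) 1 0).re, sq_nonneg ((U : M2) 1 0).im]

lemma trace_adj_mul (U V : M2) : (adjugate U * V).trace = U.det + V.det - (U - V).det := by
  simp [adjugate_fin_two, trace_fin_two, det_fin_two, Matrix.vecMul, dotProduct, Fin.sum_univ_two]
  ring

lemma trace_adj_mul' (U V : M2) : (adjugate U * V).trace = U.trace * V.trace - (U * V).trace := by
  simp [adjugate_fin_two, trace_fin_two, Matrix.mul_apply, Matrix.vecMul, dotProduct,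
    Fin.sum_univ_two]
  ring

lemma ch (X : M2) : X * X = X.trace • X - X.det • (1 : M2) := by
  ext i j
  fin_cases i <;> fin_cases j <;>
    simp [trace_fin_two, det_fin_two, Matrix.mul_apply, Fin.sum_univ_two] <;> ring

lemma yxy (X Y : M2) : Y * X * Y = (X * Y).trace • Y - Y.det • (X.trace • (1 : M2) - X) := by
  ext i j
  fin_cases i <;> fin_cases j <;>
    simp [trace_fin_two, det_fin_two, Matrix.mul_apply, Fin.sum_univ_two] <;> ring

lemma det_comm (X Y : M2) : (X * Y - Y * X).det = 4 * X.det * Y.det - X.trace ^ 2 * Y.det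
    - Y.trace ^ 2 * X.det - (X * Y).trace ^ 2 + X.trace * Y.trace * (X * Y).trace := by
  simp [trace_fin_two, det_fin_two, Matrix.mul_apply, Fin.sum_univ_two]
  ring

lemma diff_eq (X Y : M2) (hX : X.det = 1) (hY : Y.det = 1) (ht : Y.trace = X.trace) :
    X * X * X * (Y * X * X * Y) - Y * X * X * Y * (X * X * X)
      = ((X.trace ^ 2 - 1) * X.trace * ((X * Y).trace - 1)) • (X * Y - Y * X) := by
  set x := X.trace with hx
  set z := (X * Y).trace with hz
  have h1 : X * X = x • X - 1 := by rw [ch X, hX, one_smul]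
  have h2 : Y * Y = x • Y - 1 := by rw [ch Y, hY, one_smul, ht]
  have h3 : Y * X * Y = z • Y - (x • (1 : M2) - X) := by rw [yxy X Y, hY, one_smul]
  have h4 : X * X * X = (x ^ 2 - 1) • X - x • (1 : M2) := by
    rw [h1, sub_mul, smul_mul_assoc, h1, one_mul]
    module
  have h5 : Y * X * X * Y = (x * (z - 1)) • Y + x • X + (1 - x ^ 2) • (1 : M2) := by
    rw [mul_assoc Y X X, h1, mul_sub, sub_mul, mul_smul_comm, smul_mul_assoc, h3, mul_one, h2]
    module
  rw [h4, h5]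
  simp only [mul_add, add_mul, mul_sub, sub_mul, smul_mul_assoc, mul_smul_comm, mul_one, one_mul]
  module

theorem key (X Y : SU2) (ht : (Y : M2).trace = (X : M2).trace) :
    ∃ t : ℝ, 0 < t ∧
      (((X * X * X * (Y * X * X * Y))⁻¹ * (Y * X * X * Y * (X * X * X)) : SU2) : M2).trace = t := by
  have hX := (Matrix.mem_specialUnitaryGroup_iff.1 X.2).2
  have hY := (Matrix.mem_specialUnitaryGroup_iff.1 Y.2).2
  obtain ⟨x, hx, -⟩ := trace_real_le X
  obtain ⟨z, hz, hz2⟩ := trace_real_le (X * Y)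
  obtain ⟨t, ht', ht2⟩ := trace_real_le (X⁻¹ * Y)
  have hz' : ((X : M2) * (Y : M2)).trace = z := hz
  have ht'' : (star (X : M2) * (Y : M2)).trace = t := ht'
  rw [star_eq_adj, trace_adj_mul', ht, hx, hz'] at ht''
  have htr : t = x * x - z := by exact_mod_cast ht''.symm
  set U : SU2 := X * X * X * (Y * X * X * Y) with hU
  set V : SU2 := Y * X * X * Y * (X * X * X) with hV
  have hUd := (Matrix.mem_specialUnitaryGroup_iff.1 U.2).2
  have hVd := (Matrix.mem_specialUnitaryGroup_iff.1 V.2).2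
  have e1 : ((U⁻¹ * V : SU2) : M2) = star (U : M2) * (V : M2) := rfl
  have e2 : (U : M2) - (V : M2) = (X : M2) * X * X * ((Y : M2) * X * X * Y)
      - (Y : M2) * X * X * Y * ((X : M2) * X * X) := rfl
  rw [e1, star_eq_adj, trace_adj_mul, hUd, hVd, e2, diff_eq _ _ hX hY ht, det_smul, det_comm,
    hX, hY, ht, hx, hz']
  refine ⟨2 - (4 - (4 - x ^ 2)) * (3 - (4 - x ^ 2)) ^ 2 *
    ((1 - (2 - z)) ^ 2 * (2 - z) * ((4 - x ^ 2) - (2 - z))), ?_, ?_⟩
  · have := poly_bound (4 - x ^ 2) (2 - z) (by linarith) (by nlinarith) (by nlinarith)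
    linarith
  · simp only [Fintype.card_fin]
    push_cast
    ring

end Pool.Agent.P.MP_b94424_al
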